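import Mathlib
import Pool.Agent.H996.LS4
import Pool.Agent.H996.LS6

/-!
# Level sets of the prefix sums of the Legendre symbol

The walk `t ↦ χ(a) + … + χ(a + t)`, `0 ≤ t ≤ p - 1`, takes every value at most
`p (24 log log p + 156) / √(log p)` times, for every odd prime `p`, every `a` and every value `h`.

Outline.  Cut `{0, …, p - 1}` into windows of length `L`, about `(log p) / (4 log 2)`.  The number of
the members of the level set in one window is at most the number `r` of the returns of the walk to
its position at the first of them, in the next `L` steps.  By Weil's bound (a starting file) the sign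
patterns `(χ(x + 1), …, χ(x + L))` are nearly equidistributed, so that `∑_x b ^ r(x)` is at most
`13 p`, `b = 1 + 1 / (2 √L)`, by an estimate for the exponential moment of the number of returns of
the simple random walk (`LS5.lean`: `1 + q ^ |s|`, `q = 1 - 1 / √L`, is nearly superharmonic, also
with the factor `b` at `0`).  With `z ≤ A + b ^ (z - A) / log b` this bounds the number of the
windows with many members of the level set, and the sum over the windows is `O(p log L / √L)`.
-/

set_option autoImplicit false

namespace Pool.Agent.Results.MP_de1e57_nt.LevelSetsSqrtLog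

open Finset

/-- For every odd prime `p`, every `a` modulo `p` and every integer `h` the number of the
`t`, `0 ≤ t ≤ p - 1`, with `χ(a) + χ(a + 1) + … + χ(a + t) = h`, `χ` the Legendre symbol modulo `p`,
is at most `p (24 log log p + 156) / √(log p)`. -/
theorem result (p : ℕ) [Fact p.Prime] (hp : p ≠ 2) (a : ZMod p) (h : ℤ) :
    ((((range p).filter (fun t : ℕ =>
      ∑ j ∈ range (t + 1), quadraticChar (ZMod p) (a + (j : ZMod p)) = h)).card : ℕ) : ℝ) ≤
      (p : ℝ) * (24 * Real.log (Real.log p) + 156) / Real.sqrt (Real.log p) := by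
  have hpp : p.Prime := Fact.out
  have hp3 : 3 ≤ p := by
    have := hpp.two_le
    omega
  have hp0 : (0 : ℝ) < p := by exact_mod_cast hpp.pos
  have hlog1 : 1 < Real.log p := by
    have h1 : Real.exp 1 < p := by
      have := Real.exp_one_lt_d9
      have h3 : (3 : ℝ) ≤ p := by exact_mod_cast hp3
      linarith
    exact (Real.lt_log_iff_exp_lt hp0).2 h1
  have hlog : 0 < Real.log p := by linarith
  have hll : 0 ≤ Real.log (Real.log p) := Real.log_nonneg hlog1.le
  have hsl : 0 < Real.sqrt (Real.log p) := Real.sqrt_pos.2 hlog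
  set N : ℝ := ((((range p).filter (fun t : ℕ =>
      ∑ j ∈ range (t + 1), quadraticChar (ZMod p) (a + (j : ZMod p)) = h)).card : ℕ) : ℝ) with hN
  have hN0 : 0 ≤ N := Nat.cast_nonneg _
  rw [le_div_iff₀ hsl]
  rcases Nat.lt_or_ge (Nat.log 2 p) 16 with h16 | h16
  · have h1 : N ≤ p := by
      have := card_le_card (filter_subset (fun t : ℕ =>
        ∑ j ∈ range (t + 1), quadraticChar (ZMod p) (a + (j : ZMod p)) = h) (range p))
      rw [card_range] at this
      rw [hN]
      exact_mod_cast this
    have h2 : Real.sqrt (Real.log p) ≤ 156 := by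
      have h3 : p < 2 ^ 16 :=
        lt_of_lt_of_le (Nat.lt_pow_succ_log_self (by norm_num) p)
          (Nat.pow_le_pow_right (by norm_num) (by omega))
      have h4 : (p : ℝ) ≤ 2 ^ 16 := by exact_mod_cast h3.le
      have h5 : Real.log p ≤ 16 := by
        have h6 := Real.log_le_log hp0 h4
        rw [Real.log_pow] at h6
        have := Real.log_two_lt_d9
        push_cast at h6
        linarith
      rw [Real.sqrt_le_left (by norm_num)]
      norm_num
      linarith
    calc N * Real.sqrt (Real.log p) ≤ p * 156 := mul_le_mul h1 h2 hsl.le hp0.le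
      _ ≤ p * (24 * Real.log (Real.log p) + 156) := by
          refine mul_le_mul_of_nonneg_left ?_ hp0.le
          linarith
  · have hp16 : 16 ≤ p := by
      have h1 := Nat.pow_log_le_self 2 (show p ≠ 0 by omega)
      have h2 : 2 ^ 4 ≤ 2 ^ Nat.log 2 p := Nat.pow_le_pow_right (by norm_num) (by omega)
      omega
    obtain ⟨hL1, hL2, hL3⟩ := Pool.Agent.H996.LS.L_bounds p hp16
    have hmain := Pool.Agent.H996.LS.main2_L hp a h (Nat.log 2 p / 4) (by omega) hL2
    set L : ℕ := Nat.log 2 p / 4 with hL
    have hlev : ((Pool.Agent.H996.LS.lev p a h).card : ℝ) = N := rfl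
    rw [hlev] at hmain
    have hL0 : (0 : ℝ) < L := by exact_mod_cast hL1
    have hsL : 0 < Real.sqrt L := Real.sqrt_pos.2 hL0
    have hLlog : (L : ℝ) ≤ Real.log p := by
      have h1 : (2 : ℝ) ^ Nat.log 2 p ≤ p := by
        exact_mod_cast Nat.pow_log_le_self 2 (show p ≠ 0 by omega)
      have h2 := Real.log_le_log (by positivity) h1
      rw [Real.log_pow] at h2
      have h3 := Real.log_two_gt_d9
      have h4 : 4 * (L : ℝ) ≤ (Nat.log 2 p : ℝ) := by
        exact_mod_cast Nat.mul_div_le (Nat.log 2 p) 4
      have h5 : (4 * (L : ℝ)) * Real.log 2 ≤ (Nat.log 2 p : ℝ) * Real.log 2 :=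
        mul_le_mul_of_nonneg_right h4 (by linarith)
      nlinarith
    have hlogL : Real.log L ≤ Real.log (Real.log p) := Real.log_le_log hL0 hLlog
    have h1 : Real.sqrt (Real.log p) ≤ 3 * Real.sqrt L := by
      have h2 : (Real.sqrt (Real.log p)) ^ 2 ≤ (3 * Real.sqrt L) ^ 2 := by
        rw [mul_pow, Real.sq_sqrt hL0.le, Real.sq_sqrt hlog.le]
        linarith
      exact le_of_pow_le_pow_left₀ two_ne_zero (by positivity) h2
    rw [le_div_iff₀ hsL] at hmain
    calc N * Real.sqrt (Real.log p) ≤ N * (3 * Real.sqrt L) :=
          mul_le_mul_of_nonneg_left h1 hN0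
      _ = 3 * (N * Real.sqrt L) := by ring
      _ ≤ 3 * (p * (8 * Real.log L + 52)) := by linarith
      _ = p * (24 * Real.log L + 156) := by ring
      _ ≤ p * (24 * Real.log (Real.log p) + 156) := by
          refine mul_le_mul_of_nonneg_left ?_ hp0.le
          linarith

end Pool.Agent.Results.MP_de1e57_nt.LevelSetsSqrtLog
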